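import Pool.Agent.T6.H88.FP.Defs

/-! Elementary facts for project FP (helper88): `Inv`, `cen`, `cm`. -/

namespace Pool.Agent.T6.H38.FPB

open Subgroup Pool.Agent.T6.H88.FP
open scoped commutatorElement

variable {Γ : Type} [Group Γ]

theorem inv_iff {V X : Subgroup Γ} : Inv V X ↔ ∀ v ∈ V, ∀ x ∈ X, v * x * v⁻¹ ∈ X := by
  constructor
  · intro h v hv x hx
    exact (mem_normalizer_iff.1 (h hv) x).1 hx
  · intro h v hv
    refine mem_normalizer_iff.2 fun x => ⟨fun hx => h v hv x hx, fun hx => ?_⟩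
    have := h v⁻¹ (inv_mem hv) _ hx
    simpa [mul_assoc] using this

theorem inv_mono {V W X : Subgroup Γ} (h : V ≤ W) (hW : Inv W X) : Inv V X := h.trans hW

theorem inv_inf {V X Y : Subgroup Γ} (hX : Inv V X) (hY : Inv V Y) : Inv V (X ⊓ Y) := by
  rw [inv_iff] at *
  intro v hv x hx
  exact ⟨hX v hv x hx.1, hY v hv x hx.2⟩

theorem inv_self (X : Subgroup Γ) : Inv X X := by
  rw [inv_iff]
  intro v hv x hx
  exact mul_mem (mul_mem hv hx) (inv_mem hv)

theorem inv_of_le {V X : Subgroup Γ} (h : V ≤ X) : Inv V X := inv_mono h (inv_self X)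

theorem inv_bot (V : Subgroup Γ) : Inv V ⊥ := by
  rw [inv_iff]
  intro v _ x hx
  rw [mem_bot] at *
  simp [hx]

theorem mem_cen {X : Subgroup Γ} {S : Set Γ} {x : Γ} :
    x ∈ cen X S ↔ x ∈ X ∧ ∀ s ∈ S, s * x = x * s := by
  simp [cen, mem_inf, mem_centralizer_iff]

theorem mem_cen_singleton {X : Subgroup Γ} {e x : Γ} :
    x ∈ cen X {e} ↔ x ∈ X ∧ e * x = x * e := by
  simp [mem_cen]

theorem cen_le (X : Subgroup Γ) (S : Set Γ) : cen X S ≤ X := inf_le_left

theorem cen_mono {X Y : Subgroup Γ} (h : X ≤ Y) (S : Set Γ) : cen X S ≤ cen Y S :=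
  inf_le_inf_right _ h

theorem cen_anti (X : Subgroup Γ) {S T : Set Γ} (h : S ⊆ T) : cen X T ≤ cen X S :=
  inf_le_inf_left _ (centralizer_le h)

theorem inv_cenS {V X : Subgroup Γ} {S : Set Γ} (hX : Inv V X)
    (hS : ∀ v ∈ V, ∀ s ∈ S, v⁻¹ * s * v ∈ S) : Inv V (cen X S) := by
  rw [inv_iff] at *
  intro v hv x hx
  rw [mem_cen] at *
  refine ⟨hX v hv x hx.1, fun s hs => ?_⟩
  have h := hx.2 _ (hS v hv s hs)
  calc s * (v * x * v⁻¹) = v * ((v⁻¹ * s * v) * x) * v⁻¹ := by group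
    _ = v * (x * (v⁻¹ * s * v)) * v⁻¹ := by rw [h]
    _ = v * x * v⁻¹ * s := by group

theorem inv_cen {V X Y : Subgroup Γ} (hX : Inv V X) (hY : Inv V Y) : Inv V (cen X (Y : Set Γ)) := by
  refine inv_cenS hX fun v hv s hs => ?_
  have := inv_iff.1 hY v⁻¹ (inv_mem hv) s hs
  simpa using this

theorem inv_cen_el {V X : Subgroup Γ} {e : Γ} (hX : Inv V X) (he : ∀ v ∈ V, v * e = e * v) :
    Inv V (cen X {e}) := by
  refine inv_cenS hX fun v hv s hs => ?_
  rw [Set.mem_singleton_iff] at *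
  subst hs
  rw [mul_assoc, ← he v hv, inv_mul_cancel_left]

theorem inv_comm {V A B : Subgroup Γ} (hA : Inv V A) (hB : Inv V B) : Inv V ⁅A, B⁆ := by
  rw [inv_iff] at *
  intro v hv x hx
  rw [Subgroup.commutator_def] at hx
  induction hx using Subgroup.closure_induction with
  | mem x hx =>
    obtain ⟨a, ha, b, hb, rfl⟩ := hx
    have : v * ⁅a, b⁆ * v⁻¹ = ⁅v * a * v⁻¹, v * b * v⁻¹⁆ := by
      simp only [commutatorElement_def]; group
    rw [this]
    exact commutator_mem_commutator (hA v hv a ha) (hB v hv b hb)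
  | one => simp
  | mul x y _ _ hx hy =>
    have : v * (x * y) * v⁻¹ = (v * x * v⁻¹) * (v * y * v⁻¹) := by group
    rw [this]; exact mul_mem hx hy
  | inv x _ hx =>
    have : v * x⁻¹ * v⁻¹ = (v * x * v⁻¹)⁻¹ := by group
    rw [this]; exact inv_mem hx

/-- an element which commutes with `e` normalises `⟨e⟩` -/
theorem inv_zpowers {V : Subgroup Γ} {e : Γ} (he : ∀ v ∈ V, v * e = e * v) :
    Inv V (zpowers e) := by
  rw [inv_iff]
  intro v hv x hx
  obtain ⟨n, rfl⟩ := mem_zpowers_iff.1 hx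
  have : Commute v (e ^ n) := Commute.zpow_right (he v hv) n
  rw [this.eq, mul_inv_cancel_right]
  exact hx

theorem inv_cm {V X : Subgroup Γ} {e : Γ} (hX : Inv V X) (he : ∀ v ∈ V, v * e = e * v) :
    Inv V (cm X e) := inv_comm hX (inv_zpowers he)

theorem zpowers_le' {V : Subgroup Γ} {e : Γ} (he : e ∈ V) : zpowers e ≤ V := by
  rwa [zpowers_le]

/-- `X` normalises `[X, e]` -/
theorem inv_cm_self (X : Subgroup Γ) (e : Γ) : Inv X (cm X e) := by
  rw [inv_iff]
  intro x hx c hc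
  unfold cm at *
  have hc' := hc
  rw [Subgroup.commutator_def] at hc
  induction hc using Subgroup.closure_induction with
  | mem c hc =>
    obtain ⟨y, hy, z, hz, rfl⟩ := hc
    have : x * ⁅y, z⁆ * x⁻¹ = ⁅x * y, z⁆ * ⁅x, z⁆⁻¹ := by
      simp only [commutatorElement_def]; group
    rw [this]
    exact mul_mem (commutator_mem_commutator (mul_mem hx hy) hz)
      (inv_mem (commutator_mem_commutator hx hz))
  | one => simp
  | mul a b ha hb h1 h2 =>
    rw [← Subgroup.commutator_def] at ha hb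
    have : x * (a * b) * x⁻¹ = (x * a * x⁻¹) * (x * b * x⁻¹) := by group
    rw [this]; exact mul_mem (h1 ha) (h2 hb)
  | inv a ha h1 =>
    rw [← Subgroup.commutator_def] at ha
    have : x * a⁻¹ * x⁻¹ = (x * a * x⁻¹)⁻¹ := by group
    rw [this]; exact inv_mem (h1 ha)

theorem cm_le {X : Subgroup Γ} {e : Γ} (h : Inv (zpowers e) X) : cm X e ≤ X := by
  unfold cm
  rw [commutator_le]
  intro x hx z hz
  rw [commutatorElement_def, show x * z * x⁻¹ * z⁻¹ = x * (z * x⁻¹ * z⁻¹) by group]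
  exact mul_mem hx (inv_iff.1 h z hz _ (inv_mem hx))

theorem cm_mono {X Y : Subgroup Γ} (h : X ≤ Y) (e : Γ) : cm X e ≤ cm Y e :=
  commutator_mono h le_rfl

theorem centralizer_zpowers (e : Γ) : centralizer ((zpowers e : Subgroup Γ) : Set Γ) =
    centralizer {e} := by
  rw [zpowers_eq_closure, centralizer_closure]

theorem cm_eq_bot {X : Subgroup Γ} {e : Γ} : cm X e = ⊥ ↔ X ≤ centralizer {e} := by
  unfold cm
  rw [commutator_eq_bot_iff_le_centralizer, centralizer_zpowers]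

/-- if `e` centralises `Y` and `X` normalises `Y` then `[X, e]` centralises `Y` -/
theorem cm_le_centralizer {X Y : Subgroup Γ} {e : Γ} (hX : Inv X Y)
    (he : Y ≤ centralizer {e}) : cm X e ≤ centralizer (Y : Set Γ) := by
  unfold cm
  rw [commutator_le]
  intro x hx z hz
  rw [mem_centralizer_iff]
  intro y hy
  have hz' : ∀ w ∈ Y, w * z = z * w := by
    rw [← centralizer_zpowers] at he
    intro w hw
    exact (mem_centralizer_iff.1 (he hw) z hz).symm
  have h1 : x⁻¹ * y * x ∈ Y := by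
    have := inv_iff.1 hX x⁻¹ (inv_mem hx) y hy
    simpa using this
  have h2 := hz' _ h1
  have h3 := hz' y hy
  have h4 : z⁻¹ * y = y * z⁻¹ := by
    rw [inv_mul_eq_iff_eq_mul, ← mul_assoc, ← h3, mul_inv_cancel_right]
  rw [commutatorElement_def]
  calc y * (x * z * x⁻¹ * z⁻¹) = x * ((x⁻¹ * y * x) * z) * x⁻¹ * z⁻¹ := by group
    _ = x * (z * (x⁻¹ * y * x)) * x⁻¹ * z⁻¹ := by rw [h2]
    _ = x * z * x⁻¹ * (y * z⁻¹) := by group
    _ = x * z * x⁻¹ * z⁻¹ * y := by rw [← h4]; group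

/-- two subgroups which normalise each other and intersect trivially commute -/
theorem commute_of_disj {A B : Subgroup Γ} (hA : Inv A B) (hB : Inv B A) (h : A ⊓ B = ⊥) :
    A ≤ centralizer (B : Set Γ) := by
  rw [← commutator_eq_bot_iff_le_centralizer, eq_bot_iff, ← h, commutator_le]
  intro a ha b hb
  rw [commutatorElement_def]
  refine ⟨?_, ?_⟩
  · rw [show a * b * a⁻¹ * b⁻¹ = a * (b * a⁻¹ * b⁻¹) by group]
    exact A.mul_mem ha (inv_iff.1 hB b hb _ (A.inv_mem ha))
  · exact B.mul_mem (inv_iff.1 hA a ha _ hb) (B.inv_mem hb)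

theorem card_mul_relIndex' {K V : Subgroup Γ} (h : K ≤ V) :
    Nat.card K * K.relIndex V = Nat.card V := by
  rw [← relIndex_bot_left K, ← relIndex_bot_left V]
  exact relIndex_mul_relIndex _ _ _ bot_le h

/-- a subgroup of prime index is maximal -/
theorem eq_of_prime_index {K V W : Subgroup Γ} {p : ℕ} (hp : p.Prime) (hK : K.relIndex V = p)
    (hKW : K ≤ W) (hWV : W ≤ V) (hne : ¬ W ≤ K) : W = V := by
  have h := relIndex_mul_relIndex K W V hKW hWV
  rw [hK] at h
  have h1 : K.relIndex W ≠ 1 := fun h => hne (relIndex_eq_one.1 h)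
  have h2 : W.relIndex V = 1 := by
    rcases (Nat.prime_mul_iff.1 (h ▸ hp)) with h3 | h3
    · exact h3.2
    · exact absurd h3.2 h1
  exact le_antisymm hWV (relIndex_eq_one.1 h2)

/-- a subgroup of prime order has no proper nontrivial subgroups -/
theorem eq_of_prime_card {K W : Subgroup Γ} {p : ℕ} (hp : p.Prime) (hK : Nat.card K = p)
    (hWK : W ≤ K) (hne : W ≠ ⊥) : W = K := by
  have : Finite K := Nat.finite_of_card_ne_zero (by rw [hK]; exact hp.ne_zero)
  have h := card_dvd_of_le hWK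
  rw [hK, Nat.dvd_prime hp] at h
  rcases h with h | h
  · exact absurd (card_eq_one.1 h) hne
  · exact Subgroup.eq_of_le_of_card_ge hWK (by rw [hK, h])

theorem disj_pq [Finite Γ] {q r : ℕ} (hq : q.Prime) (hr : r.Prime) (hne : q ≠ r)
    {A B : Subgroup Γ} (hA : IsPGroup q A) (hB : IsPGroup r B) : A ⊓ B = ⊥ := by
  have := Fact.mk hq
  have := Fact.mk hr
  exact (IsPGroup.disjoint_of_ne q r hne A B hA hB).eq_bot

theorem isPi_mono {q r : ℕ} {X Y : Subgroup Γ} (h : X ≤ Y) (hY : IsPi q r Y) : IsPi q r X :=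
  fun s hs hd => hY s hs (hd.trans (card_dvd_of_le h))

theorem LL_mono {V G X Y : Subgroup Γ} {q r : ℕ} (hX : LL V G q r X) (h : Y ≤ X) (hY : Inv V Y) :
    LL V G q r Y := by
  refine ⟨h.trans hX.1, hY, ?_, isPi_mono h hX.2.2.2⟩
  rintro rfl
  exact hX.2.2.1 (le_antisymm hX.1 h)

theorem solvable_mono {X Y : Subgroup Γ} (h : X ≤ Y) (hY : Group.IsSolvable Y) :
    Group.IsSolvable X := by
  have := hY
  exact Group.isSolvable_of_isSolvable_injective (Subgroup.inclusion_injective h)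

/-- the centre of a nontrivial `p`-group -/
theorem center_ne_bot [Finite Γ] {r : ℕ} (hr : r.Prime) {X : Subgroup Γ} (hX : IsPGroup r X)
    (hne : X ≠ ⊥) : cen X (X : Set Γ) ≠ ⊥ := by
  have := Fact.mk hr
  have : Nontrivial X := (nontrivial_iff_ne_bot X).2 hne
  have := hX.center_nontrivial
  obtain ⟨z, hz⟩ := exists_ne (1 : center X)
  intro h
  apply hz
  have hm : ((z : X) : Γ) ∈ cen X (X : Set Γ) := by
    rw [mem_cen]
    refine ⟨(z : X).2, fun s hs => ?_⟩
    have := mem_center_iff.1 z.2 ⟨s, hs⟩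
    exact congrArg Subtype.val this
  rw [h, mem_bot] at hm
  ext
  simpa using hm

/-- normalisers grow in `p`-groups -/
theorem normalizer_grows [Finite Γ] {r : ℕ} (hr : r.Prime) {S X : Subgroup Γ} (hS : IsPGroup r S)
    (hX : X ≤ S) (hne : ¬ S ≤ X) : ∃ y ∈ S, y ∉ X ∧ y ∈ normalizer (X : Set Γ) := by
  have := Fact.mk hr
  have := hS.isNilpotent
  have hlt : X.subgroupOf S < ⊤ := by
    rw [lt_top_iff_ne_top, Ne, subgroupOf_eq_top]
    exact hne
  obtain ⟨y, hy1, hy2⟩ := SetLike.exists_of_lt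
    (Group.normalizerCondition_of_isNilpotent (G := S) _ hlt)
  refine ⟨y, y.2, fun h => hy2 (mem_subgroupOf.2 h), ?_⟩
  rw [mem_normalizer_iff] at *
  intro h
  constructor
  · intro hh
    have := (hy1 ⟨h, hX hh⟩).1 (mem_subgroupOf.2 hh)
    exact mem_subgroupOf.1 this
  · intro hh
    have hS' : h ∈ S := by
      have := mul_mem (mul_mem (inv_mem y.2) (hX hh)) y.2
      simpa [mul_assoc] using this
    exact mem_subgroupOf.1 ((hy1 ⟨h, hS'⟩).2 (mem_subgroupOf.2 hh))

theorem inv_normalizer {V S X : Subgroup Γ} (hS : Inv V S) (hX : Inv V X) :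
    Inv V (S ⊓ normalizer (X : Set Γ)) := by
  rw [inv_iff]
  intro v hv n hn
  refine ⟨inv_iff.1 hS v hv n hn.1, ?_⟩
  exact (normalizer (X : Set Γ)).mul_mem ((normalizer (X : Set Γ)).mul_mem (hX hv) hn.2)
    ((normalizer (X : Set Γ)).inv_mem (hX hv))

theorem zpowers_inv {V X : Subgroup Γ} {e : Γ} (h : Inv V X) (he : e ∈ V) : Inv (zpowers e) X :=
  inv_mono (zpowers_le' he) h

end Pool.Agent.T6.H38.FPB
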